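import Mathlib

/-!
# Bireversible Mealy automata generating large finite groups

The alphabet has `p ≥ 4` letters, three active letters and `p - 3` passive ones. Reading an active
letter permutes the `q` states cyclically, reading a passive letter interchanges the states `0` and
`1`. State `0` acts on the active letters as the transposition `(0 1)`, state `1` as `(1 2)`, all
other states act trivially. The group is isomorphic to the group of functions from the symmetric
group on the states to `S_3` generated by the functions `d ↦ r (d x)`, where `r y` is the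
permutation belonging to the state `y`. The commutators of the generators are supported in
disjoint sets and have order three, hence the group has at least `3 ^ (q (q - 1) / 2)` elements.
-/

namespace Pool.Agent.Results.MP_965ec6_al.LargeFiniteGroups

open scoped commutatorElement Nat

/-- A Mealy automaton with set of states `A` and alphabet `S`: transition functions `δ i` and
production functions `ρ x`. -/
structure Mealy (A S : Type) where
  /-- the transition function of the letter `i` -/
  δ : S → A → A
  /-- the production function of the state `x` -/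
  ρ : A → S → S

variable {A S : Type}

/-- The action of the state `x` on the finite words. -/
def Mealy.act (M : Mealy A S) : A → List S → List S
  | _, [] => []
  | x, i :: w => M.ρ x i :: M.act (M.δ i x) w

/-- All production functions are permutations of the alphabet. -/
def Mealy.Invertible (M : Mealy A S) : Prop := ∀ x, Function.Bijective (M.ρ x)

/-- All transition functions are permutations of the states. -/
def Mealy.Reversible (M : Mealy A S) : Prop := ∀ i, Function.Bijective (M.δ i)

/-- The automaton is invertible and reversible, and for every letter `j` the map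
`x ↦ δ_{ρ_x⁻¹(j)}(x)` is a permutation of the states. -/
def Mealy.Bireversible (M : Mealy A S) : Prop :=
  ∃ h : M.Invertible, M.Reversible ∧
    ∀ j : S, Function.Bijective (fun x => M.δ ((Equiv.ofBijective (M.ρ x) (h x)).symm j) x)

theorem Mealy.act_bijective (M : Mealy A S) (h : M.Invertible) (x : A) :
    Function.Bijective (M.act x) := by
  constructor
  · intro u
    induction u generalizing x with
    | nil => intro v hv; cases v with
      | nil => rfl
      | cons j v => simp [Mealy.act] at hv
    | cons i u ih => intro v hv; cases v with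
      | nil => simp [Mealy.act] at hv
      | cons j v =>
        simp only [Mealy.act, List.cons.injEq] at hv
        obtain rfl := (h x).1 hv.1
        rw [ih _ hv.2]
  · intro u
    induction u generalizing x with
    | nil => exact ⟨[], rfl⟩
    | cons i u ih =>
      obtain ⟨j, hj⟩ := (h x).2 i
      obtain ⟨v, hv⟩ := ih (M.δ j x)
      exact ⟨j :: v, by rw [Mealy.act, hj, hv]⟩

/-- The group of permutations of the set of finite words generated by the states of an invertible
automaton. -/
def Mealy.group (M : Mealy A S) (h : M.Invertible) : Subgroup (Equiv.Perm (List S)) :=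
  Subgroup.closure (Set.range fun x => Equiv.ofBijective (M.act x) (M.act_bijective h x))

/-! ### The automata -/

section Construction

variable {T : Type} (c s : Equiv.Perm A) (r : A → Equiv.Perm (Fin 3))

/-- The transition function: `c` for the active letters, `s` for the passive letters. -/
def tr : Fin 3 ⊕ T → Equiv.Perm A := Sum.elim (fun _ => c) (fun _ => s)

/-- The automaton. -/
def aut : Mealy A (Fin 3 ⊕ T) where
  δ i := tr c s i
  ρ x := Sum.map (r x) id

/-- A permutation of the active letters, extended by the identity. -/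
def ext (σ : Equiv.Perm (Fin 3)) : Equiv.Perm (Fin 3 ⊕ T) := Equiv.sumCongr σ (Equiv.refl T)

theorem ext_apply (σ : Equiv.Perm (Fin 3)) (i : Fin 3 ⊕ T) : ext σ i = Sum.map σ id i := rfl

theorem tr_ext (σ : Equiv.Perm (Fin 3)) (i : Fin 3 ⊕ T) : tr c s (ext σ i) = tr c s i := by
  cases i <;> rfl

theorem aut_invertible : (aut c s r : Mealy A (Fin 3 ⊕ T)).Invertible := fun x =>
  (ext (r x) : Equiv.Perm (Fin 3 ⊕ T)).bijective

theorem aut_bireversible : (aut c s r : Mealy A (Fin 3 ⊕ T)).Bireversible := by
  refine ⟨aut_invertible c s r, fun i => (tr c s i).bijective, fun j => ?_⟩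
  have : (fun x => (aut c s r : Mealy A (Fin 3 ⊕ T)).δ ((Equiv.ofBijective
      ((aut c s r : Mealy A (Fin 3 ⊕ T)).ρ x) (aut_invertible c s r x)).symm j) x)
      = tr c s j := by
    funext x
    obtain ⟨i, rfl⟩ := (aut_invertible c s r x).2 j
    rw [Equiv.ofBijective_symm_apply_apply]
    show tr c s i x = tr c s (ext (r x) i) x
    rw [tr_ext]
  rw [this]
  exact (tr c s j).bijective

/-- The action of a function on words. -/
def Th : (Equiv.Perm A → Equiv.Perm (Fin 3)) → List (Fin 3 ⊕ T) → List (Fin 3 ⊕ T)
  | _, [] => []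
  | f, i :: w => ext (f 1) i :: Th (fun d => f (d * tr c s i)) w

theorem Th_one (w : List (Fin 3 ⊕ T)) : Th c s 1 w = w := by
  induction w with
  | nil => rfl
  | cons i w ih =>
    rw [Th]
    congr 1
    cases i <;> rfl

theorem Th_mul (f g : Equiv.Perm A → Equiv.Perm (Fin 3)) (w : List (Fin 3 ⊕ T)) :
    Th c s (f * g) w = Th c s f (Th c s g w) := by
  induction w generalizing f g with
  | nil => rfl
  | cons i w ih =>
    rw [Th, Th, Th, tr_ext]
    congr 1
    · cases i <;> rfl
    · exact ih _ _

/-- The homomorphism from functions to permutations of words. -/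
def ThHom : (Equiv.Perm A → Equiv.Perm (Fin 3)) →* Equiv.Perm (List (Fin 3 ⊕ T)) where
  toFun f := ⟨Th c s f, Th c s f⁻¹, fun w => by rw [← Th_mul, inv_mul_cancel, Th_one],
    fun w => by rw [← Th_mul, mul_inv_cancel, Th_one]⟩
  map_one' := Equiv.ext (Th_one c s)
  map_mul' f g := Equiv.ext (Th_mul c s f g)

theorem act_eq (x : A) (w : List (Fin 3 ⊕ T)) :
    (aut c s r).act x w = Th c s (fun d => r (d x)) w := by
  induction w generalizing x with
  | nil => rfl
  | cons i w ih =>
    rw [Mealy.act, Th, ih]
    rfl

/-- The group of functions generated by the states. -/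
def fgroup : Subgroup (Equiv.Perm A → Equiv.Perm (Fin 3)) :=
  Subgroup.closure (Set.range fun x d => r (d x))

theorem group_eq : (aut c s r : Mealy A (Fin 3 ⊕ T)).group (aut_invertible c s r)
    = (fgroup r).map (ThHom c s) := by
  rw [fgroup, MonoidHom.map_closure, Mealy.group, ← Set.range_comp]
  congr 2
  funext x
  exact Equiv.ext (act_eq c s r x)

/-- The permutation of the states after reading the word `u`. -/
def D : List (Fin 3 ⊕ T) → Equiv.Perm A
  | [] => 1
  | i :: u => D u * tr c s i

theorem Th_append (f : Equiv.Perm A → Equiv.Perm (Fin 3)) (u : List (Fin 3 ⊕ T))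
    (i : Fin 3 ⊕ T) : Th c s f (u ++ [i]) = Th c s f u ++ [ext (f (D c s u)) i] := by
  induction u generalizing f with
  | nil => rfl
  | cons j u ih =>
    rw [List.cons_append, Th, ih, Th]
    rfl

theorem ThHom_injective [Nonempty T] [Finite A]
    (hcs : Subgroup.closure ({c, s} : Set (Equiv.Perm A)) = ⊤) :
    Function.Injective (ThHom c s : _ →* Equiv.Perm (List (Fin 3 ⊕ T))) := by
  -- every permutation of the states is `D u` for some `u`
  have hD : ∀ d : Equiv.Perm A, ∃ u : List (Fin 3 ⊕ T), D c s u = d := by
    intro d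
    have hd : d ∈ Submonoid.closure ({c, s} : Set (Equiv.Perm A)) := by
      rw [← Subgroup.closure_toSubmonoid_of_finite, hcs]
      trivial
    induction hd using Submonoid.closure_induction_right with
    | one => exact ⟨[], rfl⟩
    | mul_right x hx y hy ih =>
      obtain ⟨u, rfl⟩ := ih
      rcases hy with rfl | hy
      · exact ⟨Sum.inl 0 :: u, rfl⟩
      · obtain rfl := hy
        exact ⟨Sum.inr (Classical.arbitrary T) :: u, rfl⟩
  intro f g hfg
  funext d
  obtain ⟨u, rfl⟩ := hD d
  ext i
  have h1 := congrArg (fun e : Equiv.Perm (List (Fin 3 ⊕ T)) => e (u ++ [Sum.inl i])) hfg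
  have h2 : Th c s f (u ++ [Sum.inl i]) = Th c s g (u ++ [Sum.inl i]) := h1
  rw [Th_append, Th_append] at h2
  have h3 := (List.append_inj' h2 rfl).2
  simp only [List.cons.injEq, and_true] at h3
  have h4 : (Sum.inl (f (D c s u) i) : Fin 3 ⊕ T) = Sum.inl (g (D c s u) i) := h3
  exact congrArg Fin.val (Sum.inl.inj h4)

end Construction

/-! ### Counting -/

section Counting

variable (n : ℕ)

/-- The permutations belonging to the states. -/
def rr (x : Fin (n + 2)) : Equiv.Perm (Fin 3) :=
  if x = 0 then Equiv.swap 0 1 else if x = 1 then Equiv.swap 1 2 else 1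

theorem rr_comm {x y : Fin (n + 2)} (hxy : x ≠ y) (h : ¬ ((x = 0 ∧ y = 1) ∨ (x = 1 ∧ y = 0))) :
    ⁅rr n x, rr n y⁆ = 1 := by
  rw [commutatorElement_eq_one_iff_mul_comm]
  unfold rr
  split_ifs <;> simp_all

/-- The commutator of the transpositions `(0 1)` and `(1 2)`. -/
def gam : Equiv.Perm (Fin 3) :=
  ⁅(Equiv.swap 0 1 : Equiv.Perm (Fin 3)), (Equiv.swap 1 2 : Equiv.Perm (Fin 3))⁆

theorem gamma_order : orderOf gam = 3 := by
  have : Fact (Nat.Prime 3) := ⟨Nat.prime_three⟩
  apply orderOf_eq_prime
  · decide
  · decide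

/-- The set of pairs of states. -/
abbrev Pairs : Type := {a : Fin (n + 2) × Fin (n + 2) // a.1 < a.2}

theorem card_pairs : Nat.card (Pairs n) = (n + 2) * (n + 1) / 2 := by
  let e : Pairs n ≃ (Σ b : Fin (n + 2), {a : Fin (n + 2) // a < b}) :=
    { toFun := fun a => ⟨a.1.2, a.1.1, a.2⟩
      invFun := fun x => ⟨(x.2.1, x.1), x.2.2⟩
      left_inv := fun _ => rfl
      right_inv := fun _ => rfl }
  rw [Nat.card_congr e, Nat.card_eq_fintype_card, Fintype.card_sigma]
  have h : ∀ b : Fin (n + 2), Fintype.card {a : Fin (n + 2) // a < b} = (b : ℕ) := by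
    intro b
    rw [Fintype.card_subtype]
    have : (Finset.univ.filter fun a : Fin (n + 2) => a < b) = Finset.Iio b := by
      ext a; simp
    rw [this, Fin.card_Iio]
  simp only [h]
  rw [Fin.sum_univ_eq_sum_range (fun i => i) (n + 2), Finset.sum_range_id]
  rfl

/-- A permutation of the states mapping a given pair to `(0, 1)`. -/
theorem exists_dd (a : Pairs n) : ∃ d : Equiv.Perm (Fin (n + 2)), d a.1.1 = 0 ∧ d a.1.2 = 1 := by
  have h : a.1.1 ≠ a.1.2 := a.2.ne
  let d1 : Equiv.Perm (Fin (n + 2)) := Equiv.swap a.1.1 0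
  refine ⟨Equiv.swap (d1 a.1.2) 1 * d1, ?_, ?_⟩
  · have h1 : d1 a.1.1 = 0 := Equiv.swap_apply_left _ _
    rw [Equiv.Perm.mul_apply, h1]
    apply Equiv.swap_apply_of_ne_of_ne
    · rw [← h1]; exact fun h2 => h (d1.injective h2)
    · exact Fin.zero_ne_one
  · rw [Equiv.Perm.mul_apply, Equiv.swap_apply_left]

/-- The chosen permutation. -/
noncomputable def dd (a : Pairs n) : Equiv.Perm (Fin (n + 2)) := (exists_dd n a).choose

theorem dd_fst (a : Pairs n) : dd n a a.1.1 = 0 := (exists_dd n a).choose_spec.1
theorem dd_snd (a : Pairs n) : dd n a a.1.2 = 1 := (exists_dd n a).choose_spec.2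

/-- Evaluation at the chosen permutations. -/
noncomputable def ev : (Equiv.Perm (Fin (n + 2)) → Equiv.Perm (Fin 3)) →*
    (Pairs n → Equiv.Perm (Fin 3)) where
  toFun f a := f (dd n a)
  map_one' := rfl
  map_mul' _ _ := rfl

theorem single_mem (a : Pairs n) :
    Pi.mulSingle a gam ∈ (fgroup (rr n)).map (ev n) := by
  refine ⟨⁅(fun d : Equiv.Perm (Fin (n + 2)) => rr n (d a.1.1)),
    (fun d : Equiv.Perm (Fin (n + 2)) => rr n (d a.1.2))⁆, ?_, ?_⟩
  · have h1 : (fun d : Equiv.Perm (Fin (n + 2)) => rr n (d a.1.1)) ∈ fgroup (rr n) :=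
      Subgroup.subset_closure ⟨a.1.1, rfl⟩
    have h2 : (fun d : Equiv.Perm (Fin (n + 2)) => rr n (d a.1.2)) ∈ fgroup (rr n) :=
      Subgroup.subset_closure ⟨a.1.2, rfl⟩
    exact Subgroup.commutator_le_self _ (Subgroup.commutator_mem_commutator h1 h2)
  · funext b
    have hval : ev n ⁅(fun d : Equiv.Perm (Fin (n + 2)) => rr n (d a.1.1)),
        (fun d : Equiv.Perm (Fin (n + 2)) => rr n (d a.1.2))⁆ b
        = ⁅rr n (dd n b a.1.1), rr n (dd n b a.1.2)⁆ := rfl
    rw [hval]
    by_cases hab : b = a
    · subst hab
      rw [Pi.mulSingle_eq_same, dd_fst, dd_snd]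
      rfl
    · rw [Pi.mulSingle_eq_of_ne hab]
      apply rr_comm
      · exact fun h => a.2.ne ((dd n b).injective h)
      · rintro (⟨h1, h2⟩ | ⟨h1, h2⟩)
        · rw [← dd_fst n b] at h1
          rw [← dd_snd n b] at h2
          exact hab (Subtype.ext (Prod.ext ((dd n b).injective h1).symm ((dd n b).injective h2).symm))
        · rw [← dd_snd n b] at h1
          rw [← dd_fst n b] at h2
          have e1 := (dd n b).injective h1
          have e2 := (dd n b).injective h2
          have := a.2
          rw [e1, e2] at this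
          exact absurd this (not_lt.2 b.2.le)

theorem card_fgroup : 3 ^ ((n + 2) * (n + 1) / 2) ≤ Nat.card (fgroup (rr n)) := by
  classical
  have h1 : Nat.card ((fgroup (rr n)).map (ev n)) ≤ Nat.card (fgroup (rr n)) :=
    Nat.card_le_card_of_surjective ((ev n).subgroupMap (fgroup (rr n)))
      ((ev n).subgroupMap_surjective (fgroup (rr n)))
  refine le_trans ?_ h1
  set γ := gam with hγ
  have h2 : Nat.card (Pairs n → Subgroup.zpowers γ) = 3 ^ ((n + 2) * (n + 1) / 2) := by
    rw [Nat.card_fun, Nat.card_zpowers, gamma_order, card_pairs]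
  rw [← h2]
  refine Nat.card_le_card_of_injective
    (fun v : Pairs n → Subgroup.zpowers γ =>
      (⟨fun a => (v a : Equiv.Perm (Fin 3)), ?_⟩ : (fgroup (rr n)).map (ev n))) ?_
  · apply Subgroup.pi_mem_of_mulSingle_mem
    intro a
    obtain ⟨k, hk⟩ := Subgroup.mem_zpowers_iff.1 (v a).2
    rw [← hk, Pi.mulSingle_zpow]
    exact zpow_mem (single_mem n a) k
  · intro v w hvw
    funext a
    apply Subtype.ext
    exact congrFun (congrArg Subtype.val hvw) a

end Counting

/-- Let `p ≥ 4` and let `q` be so large that `(p!) ^ 2 < 3 ^ (q - 1)`. Then there is a `p`-letter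
`q`-state bireversible Mealy automaton which generates a finite group of order greater than
`(p!) ^ q`. For `p = 4` this holds for all `q ≥ 7`. -/
theorem result :
    (∀ p q : ℕ, 4 ≤ p → (p !) ^ 2 < 3 ^ (q - 1) →
      ∃ (A S : Type) (_ : Fintype A) (_ : Fintype S) (M : Mealy A S) (h : M.Invertible),
        Fintype.card A = q ∧ Fintype.card S = p ∧ M.Bireversible ∧ Finite (M.group h) ∧
          (p !) ^ q < Nat.card (M.group h)) ∧
    (∀ q : ℕ, 7 ≤ q → (4 !) ^ 2 < 3 ^ (q - 1)) := by
  constructor
  · intro p q hp hq
    obtain ⟨n, rfl⟩ : ∃ n, q = n + 2 := by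
      rcases q with _ | _ | n
      · simp at hq; have := Nat.factorial_pos p; nlinarith
      · simp at hq; have := Nat.factorial_pos p; nlinarith
      · exact ⟨n, rfl⟩
    obtain ⟨k, rfl⟩ : ∃ k, p = 3 + (k + 1) := ⟨p - 4, by omega⟩
    have hcs : Subgroup.closure
        ({finRotate (n + 2), Equiv.swap 0 1} : Set (Equiv.Perm (Fin (n + 2)))) = ⊤ := by
      have := Equiv.Perm.closure_cycle_adjacent_swap (isCycle_finRotate (n := n))
        (support_finRotate (n := n)) 0
      simpa using this
    let M : Mealy (Fin (n + 2)) (Fin 3 ⊕ Fin (k + 1)) :=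
      aut (finRotate (n + 2)) (Equiv.swap 0 1) (rr n)
    have hinj := ThHom_injective (T := Fin (k + 1)) (finRotate (n + 2)) (Equiv.swap 0 1) hcs
    have hcard : Nat.card (M.group (aut_invertible _ _ _)) = Nat.card (fgroup (rr n)) := by
      rw [group_eq]
      exact (Nat.card_congr ((fgroup (rr n)).equivMapOfInjective _ hinj).toEquiv).symm
    refine ⟨Fin (n + 2), Fin 3 ⊕ Fin (k + 1), inferInstance, inferInstance, M,
      aut_invertible _ _ _, by simp, by simp, aut_bireversible _ _ _, ?_, ?_⟩
    · have : 0 < Nat.card (M.group (aut_invertible (finRotate (n + 2)) (Equiv.swap 0 1) (rr n))) := by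
        rw [hcard]
        exact Nat.card_pos
      exact Nat.finite_of_card_ne_zero this.ne'
    · rw [hcard]
      refine lt_of_lt_of_le ?_ (card_fgroup n)
      have h1 : (((3 + (k + 1)) !) ^ (n + 2)) ^ 2 < (3 ^ ((n + 2) * (n + 1) / 2)) ^ 2 := by
        have h2 : (n + 2) * (n + 1) / 2 * 2 = (n + 2) * (n + 1) :=
          Nat.div_mul_cancel (by
            have := Nat.even_mul_succ_self (n + 1)
            rw [mul_comm]
            exact this.two_dvd)
        rw [← pow_mul, ← pow_mul, h2, mul_comm (n + 2) 2, pow_mul, mul_comm (n + 2) (n + 1), pow_mul]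
        exact Nat.pow_lt_pow_left (by simpa using hq) (by omega)
      exact lt_of_pow_lt_pow_left₀ 2 (Nat.zero_le _) h1
  · intro q hq
    calc (4 !) ^ 2 < 3 ^ 6 := by decide
      _ ≤ 3 ^ (q - 1) := Nat.pow_le_pow_right (by norm_num) (by omega)

end Pool.Agent.Results.MP_965ec6_al.LargeFiniteGroups
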